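import Pool.Agent.Lib.MP_331bf5_ag.D.Main

/-!
# Biholomorphisms of the Russell cubic for which `x` has degree at most one in a coordinate

`RussellCubic` is the Russell cubic `x + x² y + z³ + t² = 0`, with the coordinates `p 0 = x`, `p 1 = y`, `p 2 = z`, `p 3 = t`.
-/

set_option autoImplicit false

namespace Pool.Agent.Results.MP_331bf5_ag.DegreeOne

open Pool.Agent.Lib.MP_331bf5_ag

/-- There is no biholomorphism `(u, v, w)` of the Russell cubic with `C³` for which `x = a(v, w) u + b(v, w)` (with any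
functions `a` and `b`; `a = 0` is the case where `x` depends only on `v` and `w`). `F` is the map from `C³` to the cubic and
`G` an extension of its inverse. -/
theorem result :
    ¬ ∃ F : (Fin 3 → ℂ) → (Fin 4 → ℂ), ∃ G : (Fin 4 → ℂ) → (Fin 3 → ℂ),
      Differentiable ℂ F ∧ Differentiable ℂ G ∧ (∀ u, F u ∈ RussellCubic) ∧ (∀ u, G (F u) = u) ∧ (∀ p ∈ RussellCubic, F (G p) = p) ∧
      ∃ a b : ℂ → ℂ → ℂ, ∀ u : Fin 3 → ℂ, F u 0 = a (u 1) (u 2) * u 0 + b (u 1) (u 2) := by
  rintro ⟨F, G, hF, hG, hFX, hGF, hFG, a, b, hx⟩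
  exact affine F G hF hG hFX hGF hFG a b hx

end Pool.Agent.Results.MP_331bf5_ag.DegreeOne
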