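import Pool.Agent.Lib.MP_331bf5_ag.Final

/-!
# Holomorphic vector fields on the Russell cubic which kill `x` and have divergence zero

`RussellCubic` is the Russell cubic `x + x² y + z³ + t² = 0`, with the coordinates `p 0 = x`, `p 1 = y`, `p 2 = z`, `p 3 = t`.
For `c ≠ 0` the fibre `x = c` is the plane with the coordinates `q = (z, t)`; `ch c q` is its point. The line
`x = z = t = 0` consists of the points `![0, y, 0, 0]`.
-/

set_option autoImplicit false

namespace Pool.Agent.Results.MP_331bf5_ag.DivergenceFreeFields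

open Pool.Agent.Lib.MP_331bf5_ag

/-- Let `D = C ∂/∂y + A ∂/∂z + B ∂/∂t` be a holomorphic vector field on the cubic with `D x = 0`, and let `h` be a holomorphic
function such that `h D` has divergence zero on the fibres `x = c ≠ 0` (that is, `D` preserves the form `h x⁻² dx dz dt`). Then
`h D` vanishes on the line `x = z = t = 0`. -/
theorem result :
    ∀ h A B C : (Fin 4 → ℂ) → ℂ, Differentiable ℂ h → Differentiable ℂ A → Differentiable ℂ B → Differentiable ℂ C →
      (∀ p ∈ RussellCubic, (p 0) ^ 2 * C p + 3 * (p 2) ^ 2 * A p + 2 * p 3 * B p = 0) →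
      (∀ c : ℂ, c ≠ 0 → ∀ q : ℂ × ℂ, fderiv ℂ (fun q => h (ch c q) * A (ch c q)) q (1, 0) +
        fderiv ℂ (fun q => h (ch c q) * B (ch c q)) q (0, 1) = 0) →
      ∀ y : ℂ, h ![0, y, 0, 0] * A ![0, y, 0, 0] = 0 ∧ h ![0, y, 0, 0] * B ![0, y, 0, 0] = 0 ∧
        h ![0, y, 0, 0] * C ![0, y, 0, 0] = 0 := by
  intro h A B C hh hA hB hC ht hd y
  exact fields (fun p => h p * A p) (fun p => h p * B p) (fun p => h p * C p) (hh.mul hA) (hh.mul hB)
    (hh.continuous.mul hC.continuous) (fun p hp _ => by linear_combination h p * ht p hp) hd y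

end Pool.Agent.Results.MP_331bf5_ag.DivergenceFreeFields
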